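import Pool.Agent.Lib_MP_f1a94e_mr.StageId

/-!
# The chain of stages for completely multiplicative complex functions: definitions

Port of `Lib_MP_f1a94e_mr` / `Lib_MP_f1a94e_mu` from sign functions to functions `F : G → ℂ` which are
completely multiplicative on the Gaussian integers of odd norm and bounded by one.
-/

set_option autoImplicit false

namespace Pool.Agent.GaussCM

open Pool.Agent.GaussMR

/-- completely multiplicative complex functions bounded by one on the Gaussian integers of odd norm -/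
structure CM (F : G → ℂ) : Prop where
  mul : ∀ z w, Odd (nm z) → Odd (nm w) → F (z * w) = F z * F w
  bd : ∀ z, Odd (nm z) → ‖F z‖ ≤ 1

/-- unnormalised Fourier coefficient of `F` on `V X` -/
noncomputable def fcC (F : G → ℂ) (X : ℝ) (k : ℤ) : ℂ := ∑ z ∈ V X, F z * xi (-k) z

/-- the prime polynomial of a block -/
noncomputable def UC (F : G → ℂ) (P Q ρ : ℝ) (v : ℕ) (k : ℤ) : ℂ :=
  ∑ w ∈ blk P Q ρ v, F w * xi (-k) w

/-- the factorised main term of a stage -/
noncomputable def UZC (F : G → ℂ) (P Q ρ X : ℝ) (k : ℤ) : ℂ :=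
  ∑ v ∈ Finset.range (nv Q ρ), UC F P Q ρ v k * fcC F (X * Real.exp (-(v * ρ))) k

open Classical in
/-- terms `w z` with `star w ∣ z` (not primitive) -/
noncomputable def A2C (F : G → ℂ) (P Q ρ X : ℝ) (k : ℤ) : ℂ :=
  ∑ v ∈ Finset.range (nv Q ρ), ∑ w ∈ blk P Q ρ v, F w * xi (-k) w *
    ∑ z ∈ (V (X * Real.exp (-(v * ρ)))).filter (fun z => star w ∣ z), F z * xi (-k) z

/-- terms `w z` primitive of norm larger than `X` -/
noncomputable def A3C (F : G → ℂ) (P Q ρ X : ℝ) (k : ℤ) : ℂ :=
  ∑ z ∈ V (X * Real.exp ρ) \ V X, F z * (mA P Q ρ X z : ℂ) * xi (-k) z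

open Classical in
/-- frequencies for which all prime polynomials of stage `j` are small -/
noncomputable def smallSetC (F : G → ℂ) (T : ℕ) (P Q r a : ℝ) : Finset ℤ :=
  (fr T).filter (fun k => ∀ v : ℕ, ‖UC F P Q r v k‖ ≤ Real.exp ((1 - a) * (v * r)))

theorem CM.mul_eq {F : G → ℂ} (hF : CM F) {z w : G} (hz : Odd (nm z)) (hw : Odd (nm w)) :
    F (z * w) = F z * F w := hF.mul z w hz hw

theorem CM.norm {F : G → ℂ} (hF : CM F) {z : G} (h : Odd (nm z)) : ‖F z‖ ≤ 1 := hF.bd z h

end Pool.Agent.GaussCM
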