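import Pool.Agent.Lib_MP_f1a94e_mr.Small1
import Pool.Agent.Lib_MP_f1a94e_ecc.Defs

/-!
# first stage (port to complex completely multiplicative functions)
-/

set_option autoImplicit false

namespace Pool.Agent.GaussCM

open Pool.Agent.GaussMR

/-- Cauchy-Schwarz over the blocks: `‖UZC k‖² ≤ nv ∑_v ‖U_v‖² ‖fcC (X e^(-vρ)) k‖²`. Blocks with
`(v+1) ρ ≤ log P` are empty (`U_v = 0`). Large sieve: `∑_{k ∈ fr T} ‖fcC F (X e^(-vρ)) k‖² ≤
C (T + X e^(-vρ)) 9 X e^(-vρ) ≤ 18 C X² e^(-2vρ)` as `T ≤ X / Q ≤ X e^(-vρ)`. -/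
theorem small1 : ∃ C : ℝ, 0 < C ∧ ∀ (F : G → ℂ), CM F → ∀ (P Q ρ X α : ℝ) (T : ℕ) (S : Finset ℤ),
    2 ≤ P → P ≤ Q → Q ≤ X → 0 < ρ → ρ ≤ 1 → 0 ≤ α → α ≤ 1 → (T : ℝ) ≤ X / Q → S ⊆ fr T →
    (∀ k ∈ S, ∀ v : ℕ, ‖UC F P Q ρ v k‖ ≤ Real.exp ((1 - α) * (v * ρ))) →
    ∑ k ∈ S, ‖UZC F P Q ρ X k‖ ^ 2 ≤
      C * X ^ 2 * (Real.log Q / ρ + 1) ^ 2 * P ^ (-(2 * α)) := by
  classical
  obtain ⟨C0, hC0, hLS⟩ := large_sieve
  refine ⟨18 * Real.exp 2 * C0, by positivity, ?_⟩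
  intro F hF P Q ρ X α T S hP hPQ hQX hρ hρ1 hα hα1 hT hS hU
  have hP0 : 0 < P := by linarith
  have hQ0 : 0 < Q := by linarith
  have hX0 : 0 < X := by linarith
  set n : ℕ := nv Q ρ with hn
  have hlogQ : 0 ≤ Real.log Q := Real.log_nonneg (by linarith)
  have hnle : (n : ℝ) ≤ Real.log Q / ρ + 1 := by
    rw [hn, nv]
    push_cast
    have := Nat.floor_le (show 0 ≤ Real.log Q / ρ by positivity)
    linarith
  have hn0 : (0 : ℝ) ≤ n := Nat.cast_nonneg n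
  -- Cauchy-Schwarz
  have hCS : ∀ k : ℤ, ‖UZC F P Q ρ X k‖ ^ 2 ≤
      n * ∑ v ∈ Finset.range n, (‖UC F P Q ρ v k‖ ^ 2 * ‖fcC F (X * Real.exp (-(v * ρ))) k‖ ^ 2) := by
    intro k
    have h1 : ‖UZC F P Q ρ X k‖ ≤
        ∑ v ∈ Finset.range n, (‖UC F P Q ρ v k‖ * ‖fcC F (X * Real.exp (-(v * ρ))) k‖) := by
      unfold UZC
      refine (norm_sum_le _ _).trans (le_of_eq ?_)
      refine Finset.sum_congr rfl fun v _ => ?_
      rw [norm_mul]
    have h2 : (∑ v ∈ Finset.range n, (‖UC F P Q ρ v k‖ * ‖fcC F (X * Real.exp (-(v * ρ))) k‖)) ^ 2 ≤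
        n * ∑ v ∈ Finset.range n, (‖UC F P Q ρ v k‖ * ‖fcC F (X * Real.exp (-(v * ρ))) k‖) ^ 2 := by
      have := sq_sum_le_card_mul_sum_sq (s := Finset.range n)
        (f := fun v : ℕ => ‖UC F P Q ρ v k‖ * ‖fcC F (X * Real.exp (-(v * ρ))) k‖)
      rwa [Finset.card_range] at this
    calc ‖UZC F P Q ρ X k‖ ^ 2 ≤
        (∑ v ∈ Finset.range n, (‖UC F P Q ρ v k‖ * ‖fcC F (X * Real.exp (-(v * ρ))) k‖)) ^ 2 := by
          gcongr
      _ ≤ n * ∑ v ∈ Finset.range n, (‖UC F P Q ρ v k‖ * ‖fcC F (X * Real.exp (-(v * ρ))) k‖) ^ 2 := h2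
      _ = _ := by
          congr 1
          refine Finset.sum_congr rfl fun v _ => ?_
          rw [mul_pow]
  -- bound for one block
  have hblk : ∀ v : ℕ, ∑ k ∈ S, (‖UC F P Q ρ v k‖ ^ 2 * ‖fcC F (X * Real.exp (-(v * ρ))) k‖ ^ 2) ≤
      18 * Real.exp 2 * C0 * X ^ 2 * P ^ (-(2 * α)) := by
    intro v
    by_cases hb : blk P Q ρ v = ∅
    · have h0 : ∀ k : ℤ, UC F P Q ρ v k = 0 := by
        intro k
        unfold UC
        rw [hb, Finset.sum_empty]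
      have : ∑ k ∈ S, (‖UC F P Q ρ v k‖ ^ 2 * ‖fcC F (X * Real.exp (-(v * ρ))) k‖ ^ 2) = 0 := by
        refine Finset.sum_eq_zero fun k _ => ?_
        rw [h0 k]
        simp
      rw [this]
      have := Real.rpow_pos_of_pos hP0 (-(2 * α))
      positivity
    · obtain ⟨w, hw⟩ := Finset.nonempty_iff_ne_empty.2 hb
      unfold blk at hw
      rw [Finset.mem_filter, mem_PP] at hw
      obtain ⟨⟨hw1, hw2, -⟩, hw3, hw4⟩ := hw
      have hvQ : Real.exp (v * ρ) ≤ Q := (hw3.trans_le hw2).le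
      have hPv : P ≤ Real.exp ((v + 1) * ρ) := (hw1.trans_le hw4).le
      set Y : ℝ := X * Real.exp (-(v * ρ)) with hY
      have hexp : Real.exp (v * ρ) * Real.exp (-(v * ρ)) = 1 := by
        rw [← Real.exp_add]; simp
      have hYpos : 0 < Y := by positivity
      have hY1 : 1 ≤ Y := by
        have : Real.exp (v * ρ) * Real.exp (-(v * ρ)) ≤ X * Real.exp (-(v * ρ)) := by
          gcongr
          linarith
        rw [hexp] at this
        exact this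
      have hTY : (T : ℝ) ≤ Y := by
        refine hT.trans ?_
        rw [hY, Real.exp_neg, div_eq_mul_inv]
        have : Q⁻¹ ≤ (Real.exp (v * ρ))⁻¹ := inv_anti₀ (Real.exp_pos _) hvQ
        gcongr
      -- large sieve
      have h1 := hLS Y T (fun z => F z) hY1
      have h2 : ∑ z ∈ V Y, ‖F z‖ ^ 2 ≤ ((V Y).card : ℝ) := by
        calc ∑ z ∈ V Y, ‖F z‖ ^ 2 ≤ ∑ _z ∈ V Y, (1 : ℝ) := Finset.sum_le_sum fun z hz =>
              pow_le_one₀ (norm_nonneg _) (hF.norm (mem_V.1 hz).2.1)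
          _ = ((V Y).card : ℝ) := by simp
      have h1' : ∑ k ∈ fr T, ‖fcC F Y k‖ ^ 2 ≤ C0 * (T + Y) * ((V Y).card : ℝ) :=
        h1.trans (mul_le_mul_of_nonneg_left h2 (by positivity))
      have h3 : ∑ k ∈ S, ‖fcC F Y k‖ ^ 2 ≤ 18 * C0 * Y ^ 2 := by
        calc ∑ k ∈ S, ‖fcC F Y k‖ ^ 2 ≤ ∑ k ∈ fr T, ‖fcC F Y k‖ ^ 2 :=
              Finset.sum_le_sum_of_subset_of_nonneg hS (fun _ _ _ => by positivity)
          _ ≤ C0 * (T + Y) * ((V Y).card : ℝ) := h1'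
          _ ≤ C0 * (Y + Y) * (9 * Y) := by
              have := card_V_le Y hYpos.le
              gcongr
          _ = 18 * C0 * Y ^ 2 := by ring
      have h4 : ∀ k ∈ S, ‖UC F P Q ρ v k‖ ^ 2 * ‖fcC F Y k‖ ^ 2 ≤
          Real.exp ((1 - α) * (v * ρ)) ^ 2 * ‖fcC F Y k‖ ^ 2 := by
        intro k hk
        have := hU k hk v
        gcongr
      calc ∑ k ∈ S, (‖UC F P Q ρ v k‖ ^ 2 * ‖fcC F Y k‖ ^ 2) ≤
          ∑ k ∈ S, Real.exp ((1 - α) * (v * ρ)) ^ 2 * ‖fcC F Y k‖ ^ 2 := Finset.sum_le_sum h4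
        _ = Real.exp ((1 - α) * (v * ρ)) ^ 2 * ∑ k ∈ S, ‖fcC F Y k‖ ^ 2 := by
            rw [Finset.mul_sum]
        _ ≤ Real.exp ((1 - α) * (v * ρ)) ^ 2 * (18 * C0 * Y ^ 2) := by gcongr
        _ = 18 * C0 * X ^ 2 * Real.exp (-(2 * α * (v * ρ))) := by
            rw [hY, mul_pow]
            rw [show Real.exp ((1 - α) * (v * ρ)) ^ 2 * (18 * C0 * (X ^ 2 * Real.exp (-(v * ρ)) ^ 2)) =
              18 * C0 * X ^ 2 * (Real.exp ((1 - α) * (v * ρ)) ^ 2 * Real.exp (-(v * ρ)) ^ 2) by ring]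
            congr 1
            rw [← Real.exp_nat_mul, ← Real.exp_nat_mul, ← Real.exp_add]
            congr 1
            push_cast
            ring
        _ ≤ 18 * C0 * X ^ 2 * (Real.exp 2 * P ^ (-(2 * α))) := by
            have h5 : Real.exp (-(2 * α * (v * ρ))) ≤ Real.exp 2 * P ^ (-(2 * α)) := by
              rw [Real.rpow_def_of_pos hP0, ← Real.exp_add]
              apply Real.exp_le_exp.2
              have h6 : Real.log P ≤ (v + 1) * ρ := by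
                rw [Real.log_le_iff_le_exp hP0]
                exact hPv
              have h7 : 2 * α * Real.log P ≤ 2 * α * ((v + 1) * ρ) := by gcongr
              have h8 : 2 * α * ρ ≤ 2 := by nlinarith
              nlinarith
            gcongr
        _ = _ := by ring
  calc ∑ k ∈ S, ‖UZC F P Q ρ X k‖ ^ 2 ≤
      ∑ k ∈ S, (n * ∑ v ∈ Finset.range n,
        (‖UC F P Q ρ v k‖ ^ 2 * ‖fcC F (X * Real.exp (-(v * ρ))) k‖ ^ 2)) :=
        Finset.sum_le_sum fun k _ => hCS k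
    _ = n * ∑ v ∈ Finset.range n, ∑ k ∈ S,
        (‖UC F P Q ρ v k‖ ^ 2 * ‖fcC F (X * Real.exp (-(v * ρ))) k‖ ^ 2) := by
        rw [← Finset.mul_sum, Finset.sum_comm]
    _ ≤ n * ∑ v ∈ Finset.range n, (18 * Real.exp 2 * C0 * X ^ 2 * P ^ (-(2 * α))) := by
        gcongr with v hv
        exact hblk v
    _ = (18 * Real.exp 2 * C0 * X ^ 2 * P ^ (-(2 * α))) * (n : ℝ) ^ 2 := by
        rw [Finset.sum_const, Finset.card_range, nsmul_eq_mul]
        ring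
    _ ≤ (18 * Real.exp 2 * C0 * X ^ 2 * P ^ (-(2 * α))) * (Real.log Q / ρ + 1) ^ 2 := by
        have := Real.rpow_pos_of_pos hP0 (-(2 * α))
        gcongr
    _ = _ := by ring

end Pool.Agent.GaussCM
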