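import Pool.Agent.Lib_MP_f1a94e_mu.SmallM
import Pool.Agent.Lib_MP_f1a94e_ecc.Defs

/-!
# from one stage to the next (port to complex completely multiplicative functions)
-/

set_option autoImplicit false

namespace Pool.Agent.GaussCM

open Pool.Agent.GaussMR

/-- second moment of `(U_w)^l fcC`, explicit dependence on `l` -/
theorem sM_moment : ∃ C : ℝ, 0 < C ∧ ∀ (l : ℕ) (F : G → ℂ), CM F →
    ∀ (P Q ρ X' Y : ℝ) (T w : ℕ), 0 < ρ → ρ ≤ 1 → 0 ≤ X' → 1 ≤ Y →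
    Real.exp ((w + 1) * ρ) ^ l * X' ≤ Y →
    ∑ k ∈ fr T, ‖UC F P Q ρ w k ^ l * fcC F X' k‖ ^ 2 ≤
      C * (144 * ((l : ℝ) + 1)) ^ l * (T + Y) * (Real.exp (w * ρ) ^ l * X') := by
  obtain ⟨C1, hC1, h1⟩ := large_sieve_fam
  refine ⟨C1 * 9, by positivity, ?_⟩
  intro l F hF P Q ρ X' Y T w hρ hρ1 hX' hY hle
  have h2 := pairsX l
  classical
  set s : Finset ((Fin l → G) × G) :=
    (Fintype.piFinset fun _ : Fin l => blk P Q ρ w) ×ˢ V X' with hs
  have hmem : ∀ i ∈ s, (∀ j, i.1 j ∈ blk P Q ρ w) ∧ i.2 ∈ V X' := by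
    intro i hi
    rw [hs, Finset.mem_product, Fintype.mem_piFinset] at hi
    exact hi
  have hid : ∀ k : ℤ, UC F P Q ρ w k ^ l * fcC F X' k =
      ∑ i ∈ s, ((∏ j, F (i.1 j)) * F i.2) * xi (-k) ((∏ j, i.1 j) * i.2) := by
    intro k
    have e1 : UC F P Q ρ w k ^ l = ∑ x ∈ Fintype.piFinset (fun _ : Fin l => blk P Q ρ w),
        ∏ j, (F (x j) * xi (-k) (x j)) := by
      have := Finset.prod_univ_sum (fun _ : Fin l => blk P Q ρ w)
        (fun _ (u : G) => F u * xi (-k) u)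
      rw [← this, Finset.prod_const, Finset.card_univ, Fintype.card_fin]
      rfl
    rw [e1, hs, Finset.sum_product]
    unfold fcC
    rw [Finset.sum_mul_sum]
    refine Finset.sum_congr rfl fun x _ => Finset.sum_congr rfl fun z _ => ?_
    dsimp only
    rw [xi_mul, s2_xi_prod, Finset.prod_mul_distrib]
    ring
  have hodd : ∀ i ∈ s, ∀ j, Odd (nm (i.1 j)) := fun i hi j =>
    s2_odd_PP (s2_mem_blk ((hmem i hi).1 j)).1
  have hc : ∀ i ∈ s, ‖(∏ j, F (i.1 j)) * F i.2‖ ≤ 1 := by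
    intro i hi
    rw [norm_mul, norm_prod]
    exact mul_le_one₀ (Finset.prod_le_one (fun _ _ => norm_nonneg _)
      fun j _ => hF.norm (hodd i hi j)) (norm_nonneg _) (hF.norm (mem_V.1 (hmem i hi).2).2.1)
  have hg : ∀ i ∈ s, Odd (nm ((∏ j, i.1 j) * i.2)) ∧ (nm ((∏ j, i.1 j) * i.2) : ℝ) ≤ Y := by
    intro i hi
    constructor
    · rw [odd_nm_mul]
      refine ⟨?_, (mem_V.1 (hmem i hi).2).2.1⟩
      rw [s2_nm_prod]
      exact Finset.prod_induction _ Odd (fun a b => Odd.mul) odd_one fun j _ => hodd i hi j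
    · rw [nm_mul, s2_nm_prod]
      push_cast
      refine le_trans ?_ hle
      refine mul_le_mul ?_ (mem_V.1 (hmem i hi).2).1 (Nat.cast_nonneg _) (by positivity)
      refine (Finset.prod_le_prod (fun j _ => Nat.cast_nonneg _)
        (fun j _ => (s2_mem_blk ((hmem i hi).1 j)).2.2)).trans ?_
      rw [Finset.prod_const, Finset.card_univ, Fintype.card_fin]
  have h3 := h1 _ s (fun i => (∏ j, i.1 j) * i.2) (fun i => (∏ j, F (i.1 j)) * F i.2)
    Y T hY hc hg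
  have h4 := h2 P Q (Real.exp (w * ρ)) X' (blk P Q ρ w)
    (fun u hu => (s2_mem_blk hu).1) (Real.one_le_exp (by positivity)) hX' (by
      intro u hu
      have hu' := (s2_mem_blk hu).2
      refine ⟨hu'.1, hu'.2.trans ?_⟩
      have : Real.exp ((w + 1) * ρ) = Real.exp ρ * Real.exp (w * ρ) := by
        rw [← Real.exp_add]
        congr 1
        ring
      rw [this]
      have h5 : Real.exp ρ ≤ 3 :=
        (Real.exp_le_exp.2 hρ1).trans (by linarith [Real.exp_one_lt_d9])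
      exact mul_le_mul_of_nonneg_right h5 (Real.exp_pos _).le)
  have hset : {p : ((Fin l → G) × G) × ((Fin l → G) × G) | p.1 ∈ s ∧ p.2 ∈ s ∧
      pr ((∏ j, p.1.1 j) * p.1.2) = pr ((∏ j, p.2.1 j) * p.2.2)} =
      {q : ((Fin l → G) × G) × ((Fin l → G) × G) |
      (∀ i, q.1.1 i ∈ blk P Q ρ w) ∧ q.1.2 ∈ V X' ∧ (∀ i, q.2.1 i ∈ blk P Q ρ w) ∧
      q.2.2 ∈ V X' ∧ pr ((∏ i, q.1.1 i) * q.1.2) = pr ((∏ i, q.2.1 i) * q.2.2)} := by
    ext q
    simp only [Set.mem_setOf_eq, hs, Finset.mem_product, Fintype.mem_piFinset]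
    tauto
  rw [hset] at h3
  calc ∑ k ∈ fr T, ‖UC F P Q ρ w k ^ l * fcC F X' k‖ ^ 2
      = ∑ k ∈ fr T, ‖∑ i ∈ s, ((∏ j, F (i.1 j)) * F i.2) *
          xi (-k) ((∏ j, i.1 j) * i.2)‖ ^ 2 := by
        refine Finset.sum_congr rfl fun k _ => ?_
        rw [hid k]
    _ ≤ C1 * (T + Y) * (9 * (144 * ((l : ℝ) + 1)) ^ l * Real.exp (w * ρ) ^ l * X') := by
        refine h3.trans ?_
        refine mul_le_mul_of_nonneg_left h4 ?_
        have : (0 : ℝ) ≤ T := Nat.cast_nonneg _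
        have : 0 ≤ T + Y := by linarith
        positivity
    _ = C1 * 9 * (144 * ((l : ℝ) + 1)) ^ l * (T + Y) * (Real.exp (w * ρ) ^ l * X') := by ring

theorem s2_blk_ne {F : G → ℂ} {P Q ρ : ℝ} {v : ℕ} {k : ℤ} (h : UC F P Q ρ v k ≠ 0) :
    P < Real.exp ((v + 1) * ρ) ∧ Real.exp (v * ρ) < Q := by
  unfold UC at h
  obtain ⟨u, hu, -⟩ := Finset.exists_ne_zero_of_sum_ne_zero h
  have h1 := s2_mem_blk hu
  have h2 := s2_mem_PP h1.1
  exact ⟨h2.2.1.trans_le h1.2.2, h1.2.1.trans_le h2.1⟩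

/-- Same proof as `small2` (Lib_MP_f1a94e_mr/Small2.lean), with two block lengths `ρ1, ρ2`, with
`pairsX` in place of `pairsU` (so `s2_moment l` holds with the constant `C1 * 9 * (144 (l+1)) ^ l`,
`C1` from `large_sieve_fam`), and `l = ⌊v ρ2 / (w ρ1)⌋ + 1`, so that
`v ρ2 ≤ l w ρ1 ≤ v ρ2 + w ρ1` and `l ≤ 2 log Q2 / log P1 + 1 ≤ l0 + 1`. -/
theorem smallM : ∃ C : ℝ, 0 < C ∧ ∀ (F : G → ℂ), CM F →
    ∀ (P1 Q1 P2 Q2 ρ1 ρ2 X α1 α2 l0 : ℝ) (T : ℕ) (S : Finset ℤ),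
    Real.exp 2 ≤ P1 → P1 ≤ Q1 → Q1 ≤ X → 1 ≤ P2 → P2 ≤ Q2 → Q2 ≤ X → 1 ≤ l0 →
    2 * Real.log Q2 ≤ l0 * Real.log P1 →
    0 < ρ1 → ρ1 ≤ 1 → 0 < ρ2 → ρ2 ≤ 1 → 0 ≤ α1 → α1 ≤ α2 → α2 ≤ 1 → (T : ℝ) ≤ X → S ⊆ fr T →
    (∀ k ∈ S, ∃ w : ℕ, Real.exp ((1 - α1) * (w * ρ1)) < ‖UC F P1 Q1 ρ1 w k‖) →
    (∀ k ∈ S, ∀ v : ℕ, ‖UC F P2 Q2 ρ2 v k‖ ≤ Real.exp ((1 - α2) * (v * ρ2))) →
    ∑ k ∈ S, ‖UZC F P2 Q2 ρ2 X k‖ ^ 2 ≤
      X ^ 2 * (Real.log Q2 / ρ2 + 1) ^ 2 * (Real.log Q1 / ρ1 + 1) * Q1 ^ 2 *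
        Real.exp (C * (l0 + 2) * Real.log (l0 + 2)) * P2 ^ (-(2 * (α2 - α1))) := by
  obtain ⟨C1, hC10, hC1⟩ := sM_moment
  refine ⟨|Real.log C1| + 12, by positivity, ?_⟩
  intro F hF P1 Q1 P2 Q2 ρ1 ρ2 X α1 α2 l0 T S hP1 hPQ1 hQ1X hP2 hPQ2 hQX hl0 hlog hρ1 hρ11 hρ2 hρ21
    hα1 hα12 hα2 hTX hST hw hv
  set E : ℝ := Real.exp (l0 + 1) with hE
  have hEpos : 0 < E := Real.exp_pos _
  have he2 : (1 : ℝ) ≤ Real.exp 2 := Real.one_le_exp (by norm_num)
  have hP1' : 1 ≤ P1 := he2.trans hP1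
  have hQ1' : 1 ≤ Q1 := hP1'.trans hPQ1
  have hQ2' : 1 ≤ Q2 := hP2.trans hPQ2
  have hX' : 1 ≤ X := hQ2'.trans hQX
  have hlP1 : 2 ≤ Real.log P1 := by
    rw [Real.le_log_iff_exp_le (by linarith)]
    exact hP1
  have hlQ1 : 0 ≤ Real.log Q1 := Real.log_nonneg hQ1'
  have hlQ2 : 0 ≤ Real.log Q2 := Real.log_nonneg hQ2'
  set N : ℕ := nv Q2 ρ2 with hN
  set M : ℕ := nv Q1 ρ1 with hM
  have hNle : (N : ℝ) ≤ Real.log Q2 / ρ2 + 1 := by
    rw [hN]
    unfold nv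
    push_cast
    have := Nat.floor_le (div_nonneg hlQ2 hρ2.le)
    linarith
  have hMle : (M : ℝ) ≤ Real.log Q1 / ρ1 + 1 := by
    rw [hM]
    unfold nv
    push_cast
    have := Nat.floor_le (div_nonneg hlQ1 hρ1.le)
    linarith
  set R : ℝ := Real.exp ((|Real.log C1| + 12) * (l0 + 2) * Real.log (l0 + 2)) with hR
  have hRpos : 0 < R := Real.exp_pos _
  set K : ℝ := R * X ^ 2 * Q1 ^ 2 * P2 ^ (-(2 * (α2 - α1))) with hK
  have hP2pow : 0 < P2 ^ (-(2 * (α2 - α1))) := Real.rpow_pos_of_pos (by linarith) _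
  have hKpos : 0 < K := by positivity
  -- bound for one pair of blocks
  have hpair : ∀ v w : ℕ, (∃ k, UC F P2 Q2 ρ2 v k ≠ 0) → (∃ k, UC F P1 Q1 ρ1 w k ≠ 0) →
      ∀ S' : Finset ℤ, S' ⊆ fr T →
      (∀ k ∈ S', Real.exp ((1 - α1) * (w * ρ1)) < ‖UC F P1 Q1 ρ1 w k‖) →
      ∑ k ∈ S', Real.exp ((1 - α2) * (v * ρ2)) ^ 2 *
        ‖fcC F (X * Real.exp (-(v * ρ2))) k‖ ^ 2 ≤ K := by
    rintro v w ⟨k2, hk2⟩ ⟨k1, hk1⟩ S' hS' hcond
    obtain ⟨a1, a2⟩ := s2_blk_ne hk2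
    obtain ⟨b1, b2⟩ := s2_blk_ne hk1
    have a1' : Real.log P2 < (v + 1) * ρ2 := by
      rw [Real.log_lt_iff_lt_exp (by linarith)]
      exact a1
    have b1' : Real.log P1 < (w + 1) * ρ1 := by
      rw [Real.log_lt_iff_lt_exp (by linarith)]
      exact b1
    have a2' : v * ρ2 < Real.log Q2 := by
      rw [Real.lt_log_iff_exp_lt (by linarith)]
      exact a2
    have hwρ : Real.log P1 / 2 < w * ρ1 := by linarith
    have hwρ0 : 0 < w * ρ1 := by linarith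
    have hvρ0 : 0 ≤ v * ρ2 := by positivity
    have hq : v * ρ2 / (w * ρ1) ≤ l0 := by
      rw [div_le_iff₀ hwρ0]
      have h2 : l0 * (Real.log P1 / 2) ≤ l0 * (w * ρ1) :=
        mul_le_mul_of_nonneg_left hwρ.le (by linarith)
      linarith
    set l : ℕ := ⌊v * ρ2 / (w * ρ1)⌋₊ + 1 with hl
    have hlc : (l : ℝ) = (⌊v * ρ2 / (w * ρ1)⌋₊ : ℝ) + 1 := by
      rw [hl]
      push_cast
      ring
    have hfl := Nat.floor_le (div_nonneg hvρ0 hwρ0.le)
    have hfl2 := Nat.lt_floor_add_one (v * ρ2 / (w * ρ1))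
    have hl1' : (l : ℝ) ≤ l0 + 1 := by
      rw [hlc]
      linarith
    have hl2' : v * ρ2 ≤ l * (w * ρ1) := by
      rw [hlc, ← div_le_iff₀ hwρ0]
      exact hfl2.le
    have hl3' : l * (w * ρ1) ≤ v * ρ2 + w * ρ1 := by
      rw [hlc, add_mul, one_mul]
      have := (le_div_iff₀ hwρ0).1 hfl
      linarith
    have hexpw : Real.exp (w * ρ1) ^ l * (X * Real.exp (-(v * ρ2))) ≤ Q1 * X := by
      have e1 : Real.exp (w * ρ1) ^ l * (X * Real.exp (-(v * ρ2))) =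
          Real.exp (l * (w * ρ1) - v * ρ2) * X := by
        rw [← Real.exp_nat_mul, mul_left_comm, ← Real.exp_add, mul_comm]
        congr 2
      rw [e1]
      refine mul_le_mul_of_nonneg_right ?_ (by linarith)
      refine le_trans (Real.exp_le_exp.2 ?_) b2.le
      linarith
    have hexpY : Real.exp ((w + 1) * ρ1) ^ l * (X * Real.exp (-(v * ρ2))) ≤ E * Q1 * X := by
      have e1 : Real.exp ((w + 1) * ρ1) ^ l * (X * Real.exp (-(v * ρ2))) =
          Real.exp (l * ρ1) * (Real.exp (w * ρ1) ^ l * (X * Real.exp (-(v * ρ2)))) := by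
        have e2 : Real.exp ((w + 1) * ρ1) ^ l = Real.exp (l * ρ1) * Real.exp (w * ρ1) ^ l := by
          rw [← Real.exp_nat_mul, ← Real.exp_nat_mul, ← Real.exp_add]
          congr 1
          ring
        rw [e2, mul_assoc]
      rw [e1, mul_assoc E]
      refine mul_le_mul ?_ hexpw (by positivity) hEpos.le
      rw [hE]
      refine Real.exp_le_exp.2 ?_
      calc (l : ℝ) * ρ1 ≤ l * 1 := mul_le_mul_of_nonneg_left hρ11 (Nat.cast_nonneg _)
        _ ≤ l0 + 1 := by linarith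
    have hY1 : 1 ≤ E * Q1 * X := by
      have h1 : 1 ≤ E := Real.one_le_exp (by linarith)
      have h2 : 1 ≤ E * Q1 := one_le_mul_of_one_le_of_one_le h1 hQ1'
      exact one_le_mul_of_one_le_of_one_le h2 hX'
    have hmom := hC1 l F hF P1 Q1 ρ1 (X * Real.exp (-(v * ρ2))) (E * Q1 * X) T w hρ1 hρ11
      (by positivity) hY1 hexpY
    have hmom2 : ∑ k ∈ fr T, ‖UC F P1 Q1 ρ1 w k ^ l * fcC F (X * Real.exp (-(v * ρ2))) k‖ ^ 2 ≤
        (C1 * (144 * ((l : ℝ) + 1)) ^ l * (1 + E)) * X ^ 2 * Q1 ^ 2 := by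
      refine hmom.trans ?_
      have h1 : (T : ℝ) + E * Q1 * X ≤ (1 + E) * Q1 * X := by
        have h10 : X ≤ Q1 * X := le_mul_of_one_le_left (zero_le_one.trans hX') hQ1'
        linarith only [h10, hTX]
      have h2 : 0 ≤ (T : ℝ) + E * Q1 * X := by positivity
      calc C1 * (144 * ((l : ℝ) + 1)) ^ l * (T + E * Q1 * X) *
            (Real.exp (w * ρ1) ^ l * (X * Real.exp (-(v * ρ2))))
          ≤ C1 * (144 * ((l : ℝ) + 1)) ^ l * ((1 + E) * Q1 * X) * (Q1 * X) := by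
            refine mul_le_mul ?_ hexpw (by positivity) (by positivity)
            exact mul_le_mul_of_nonneg_left h1 (by positivity)
        _ = (C1 * (144 * ((l : ℝ) + 1)) ^ l * (1 + E)) * X ^ 2 * Q1 ^ 2 := by ring
    -- amplification
    have hamp : ∀ k ∈ S', Real.exp ((1 - α2) * (v * ρ2)) ^ 2 *
        ‖fcC F (X * Real.exp (-(v * ρ2))) k‖ ^ 2 ≤ Real.exp (-(2 * (α2 - α1) * (v * ρ2))) *
        ‖UC F P1 Q1 ρ1 w k ^ l * fcC F (X * Real.exp (-(v * ρ2))) k‖ ^ 2 := by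
      intro k hk
      rw [norm_mul, mul_pow, ← mul_assoc (Real.exp (-(2 * (α2 - α1) * (v * ρ2))))]
      refine mul_le_mul_of_nonneg_right ?_ (sq_nonneg _)
      have h1 : Real.exp ((1 - α1) * (v * ρ2)) ^ 2 ≤ ‖UC F P1 Q1 ρ1 w k ^ l‖ ^ 2 := by
        refine pow_le_pow_left₀ (Real.exp_pos _).le ?_ 2
        rw [norm_pow]
        calc Real.exp ((1 - α1) * (v * ρ2)) ≤ Real.exp ((1 - α1) * (w * ρ1)) ^ l := by
              rw [← Real.exp_nat_mul]
              refine Real.exp_le_exp.2 ?_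
              calc (1 - α1) * (v * ρ2) ≤ (1 - α1) * (l * (w * ρ1)) :=
                    mul_le_mul_of_nonneg_left hl2' (by linarith)
                _ = l * ((1 - α1) * (w * ρ1)) := by ring
          _ ≤ ‖UC F P1 Q1 ρ1 w k‖ ^ l := pow_le_pow_left₀ (Real.exp_pos _).le (hcond k hk).le l
      calc Real.exp ((1 - α2) * (v * ρ2)) ^ 2
          = Real.exp (-(2 * (α2 - α1) * (v * ρ2))) * Real.exp ((1 - α1) * (v * ρ2)) ^ 2 := by
            rw [← Real.exp_nat_mul, ← Real.exp_nat_mul, ← Real.exp_add]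
            congr 1
            push_cast
            ring
        _ ≤ _ := mul_le_mul_of_nonneg_left h1 (Real.exp_pos _).le
    have hexpP : Real.exp (-(2 * (α2 - α1) * (v * ρ2))) ≤
        Real.exp 2 * P2 ^ (-(2 * (α2 - α1))) := by
      rw [Real.rpow_def_of_pos (by linarith), ← Real.exp_add]
      refine Real.exp_le_exp.2 ?_
      have h1 : Real.log P2 - v * ρ2 ≤ 1 := by linarith
      have h2 : (α2 - α1) * (Real.log P2 - v * ρ2) ≤ (α2 - α1) * 1 :=
        mul_le_mul_of_nonneg_left h1 (sub_nonneg.2 hα12)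
      linarith only [h2, hα1, hα2]
    have hcst := sM_const C1 l0 hC10 hl0 l hl1'
    rw [← hE, ← hR] at hcst
    calc ∑ k ∈ S', Real.exp ((1 - α2) * (v * ρ2)) ^ 2 * ‖fcC F (X * Real.exp (-(v * ρ2))) k‖ ^ 2
        ≤ ∑ k ∈ S', Real.exp (-(2 * (α2 - α1) * (v * ρ2))) *
          ‖UC F P1 Q1 ρ1 w k ^ l * fcC F (X * Real.exp (-(v * ρ2))) k‖ ^ 2 :=
          Finset.sum_le_sum hamp
      _ ≤ ∑ k ∈ fr T, Real.exp (-(2 * (α2 - α1) * (v * ρ2))) *
          ‖UC F P1 Q1 ρ1 w k ^ l * fcC F (X * Real.exp (-(v * ρ2))) k‖ ^ 2 :=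
          Finset.sum_le_sum_of_subset_of_nonneg hS' fun k _ _ => by positivity
      _ = Real.exp (-(2 * (α2 - α1) * (v * ρ2))) * ∑ k ∈ fr T,
          ‖UC F P1 Q1 ρ1 w k ^ l * fcC F (X * Real.exp (-(v * ρ2))) k‖ ^ 2 := by
          rw [Finset.mul_sum]
      _ ≤ (Real.exp 2 * P2 ^ (-(2 * (α2 - α1)))) *
          ((C1 * (144 * ((l : ℝ) + 1)) ^ l * (1 + E)) * X ^ 2 * Q1 ^ 2) :=
          mul_le_mul hexpP hmom2 (Finset.sum_nonneg fun k _ => by positivity) (by positivity)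
      _ = (C1 * (144 * ((l : ℝ) + 1)) ^ l * (1 + E) * Real.exp 2) *
            (X ^ 2 * Q1 ^ 2 * P2 ^ (-(2 * (α2 - α1)))) := by ring
      _ ≤ R * (X ^ 2 * Q1 ^ 2 * P2 ^ (-(2 * (α2 - α1)))) :=
          mul_le_mul_of_nonneg_right hcst (by positivity)
      _ = K := by
          rw [hK]
          ring
  -- one second stage block
  have hblock : ∀ v : ℕ, ∑ k ∈ S, ‖UC F P2 Q2 ρ2 v k * fcC F (X * Real.exp (-(v * ρ2))) k‖ ^ 2 ≤
      M * K := by
    intro v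
    classical
    by_cases hv0 : ∃ k, UC F P2 Q2 ρ2 v k ≠ 0
    · have h1 : ∀ k ∈ S, ‖UC F P2 Q2 ρ2 v k * fcC F (X * Real.exp (-(v * ρ2))) k‖ ^ 2 ≤
          ∑ w ∈ Finset.range M, if Real.exp ((1 - α1) * (w * ρ1)) < ‖UC F P1 Q1 ρ1 w k‖ then
            Real.exp ((1 - α2) * (v * ρ2)) ^ 2 *
              ‖fcC F (X * Real.exp (-(v * ρ2))) k‖ ^ 2 else 0 := by
        intro k hk
        obtain ⟨w, hwk⟩ := hw k hk
        have hUne : UC F P1 Q1 ρ1 w k ≠ 0 := by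
          intro h0
          rw [h0, norm_zero] at hwk
          exact absurd hwk (not_lt.2 (Real.exp_pos _).le)
        have hwM : w ∈ Finset.range M := by
          rw [Finset.mem_range, hM]
          unfold nv
          rw [Nat.lt_succ_iff]
          apply Nat.le_floor
          rw [le_div_iff₀ hρ1]
          refine le_of_lt ?_
          rw [Real.lt_log_iff_exp_lt (by linarith)]
          exact (s2_blk_ne hUne).2
        have h2 := Finset.single_le_sum (f := fun w : ℕ =>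
          if Real.exp ((1 - α1) * (w * ρ1)) < ‖UC F P1 Q1 ρ1 w k‖ then
            Real.exp ((1 - α2) * (v * ρ2)) ^ 2 *
              ‖fcC F (X * Real.exp (-(v * ρ2))) k‖ ^ 2 else 0)
          (fun i _ => by positivity) hwM
        refine le_trans ?_ h2
        simp only [hwk, if_true]
        rw [norm_mul, mul_pow]
        exact mul_le_mul_of_nonneg_right (pow_le_pow_left₀ (norm_nonneg _) (hv k hk v) 2)
          (by positivity)
      refine (Finset.sum_le_sum h1).trans ?_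
      rw [Finset.sum_comm]
      calc ∑ w ∈ Finset.range M, ∑ k ∈ S,
          (if Real.exp ((1 - α1) * (w * ρ1)) < ‖UC F P1 Q1 ρ1 w k‖ then
            Real.exp ((1 - α2) * (v * ρ2)) ^ 2 *
              ‖fcC F (X * Real.exp (-(v * ρ2))) k‖ ^ 2 else 0)
          ≤ ∑ w ∈ Finset.range M, K := by
            refine Finset.sum_le_sum fun w _ => ?_
            rw [← Finset.sum_filter]
            by_cases hne : (S.filter fun k =>
                Real.exp ((1 - α1) * (w * ρ1)) < ‖UC F P1 Q1 ρ1 w k‖).Nonempty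
            · obtain ⟨k, hk⟩ := hne
              rw [Finset.mem_filter] at hk
              have hUne : UC F P1 Q1 ρ1 w k ≠ 0 := by
                intro h0
                have h3 := hk.2
                rw [h0, norm_zero] at h3
                exact absurd h3 (not_lt.2 (Real.exp_pos _).le)
              exact hpair v w hv0 ⟨k, hUne⟩ _ ((Finset.filter_subset _ _).trans hST)
                fun k hk => (Finset.mem_filter.1 hk).2
            · rw [Finset.not_nonempty_iff_eq_empty.1 hne, Finset.sum_empty]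
              exact hKpos.le
        _ = M * K := by rw [Finset.sum_const, Finset.card_range, nsmul_eq_mul]
    · have h1 : ∀ k, UC F P2 Q2 ρ2 v k = 0 := fun k => by
        by_contra h0
        exact hv0 ⟨k, h0⟩
      have h2 : ∑ k ∈ S, ‖UC F P2 Q2 ρ2 v k * fcC F (X * Real.exp (-(v * ρ2))) k‖ ^ 2 = 0 := by
        refine Finset.sum_eq_zero fun k _ => ?_
        rw [h1 k]
        simp
      rw [h2]
      positivity
  have hNM : (0 : ℝ) ≤ Real.log Q2 / ρ2 + 1 := by positivity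
  calc ∑ k ∈ S, ‖UZC F P2 Q2 ρ2 X k‖ ^ 2
      ≤ ∑ k ∈ S, N * ∑ v ∈ Finset.range N,
          ‖UC F P2 Q2 ρ2 v k * fcC F (X * Real.exp (-(v * ρ2))) k‖ ^ 2 := by
        refine Finset.sum_le_sum fun k _ => ?_
        unfold UZC
        rw [← hN]
        have h1 := norm_sum_le (Finset.range N)
          (fun v : ℕ => UC F P2 Q2 ρ2 v k * fcC F (X * Real.exp (-(v * ρ2))) k)
        refine (pow_le_pow_left₀ (norm_nonneg _) h1 2).trans ?_
        have h2 := sq_sum_le_card_mul_sum_sq (s := Finset.range N)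
          (f := fun v : ℕ => ‖UC F P2 Q2 ρ2 v k * fcC F (X * Real.exp (-(v * ρ2))) k‖)
        rw [Finset.card_range] at h2
        exact h2
    _ = N * ∑ v ∈ Finset.range N, ∑ k ∈ S,
          ‖UC F P2 Q2 ρ2 v k * fcC F (X * Real.exp (-(v * ρ2))) k‖ ^ 2 := by
        rw [← Finset.mul_sum, Finset.sum_comm]
    _ ≤ N * ∑ v ∈ Finset.range N, (M * K) := by
        refine mul_le_mul_of_nonneg_left (Finset.sum_le_sum fun v _ => hblock v)
          (Nat.cast_nonneg _)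
    _ = N * (N * (M * K)) := by
        rw [Finset.sum_const, Finset.card_range, nsmul_eq_mul]
    _ ≤ (Real.log Q2 / ρ2 + 1) * ((Real.log Q2 / ρ2 + 1) * ((Real.log Q1 / ρ1 + 1) * K)) := by
        refine mul_le_mul hNle ?_ (by positivity) hNM
        refine mul_le_mul hNle ?_ (by positivity) hNM
        exact mul_le_mul_of_nonneg_right hMle hKpos.le
    _ = _ := by
        rw [hK]
        ring

end Pool.Agent.GaussCM
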