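import Pool.Agent.Lib_MP_f1a94e_ecc.Defs

/-!
# the identity behind a stage (port to complex completely multiplicative functions)
-/

set_option autoImplicit false

namespace Pool.Agent.GaussCM

open Pool.Agent.GaussMR

open Classical in
/-- the substitution `z' = w z` -/
theorem sub_sum (F : G → ℂ) (hF : CM F) {w : G} (hw : Spl w) (Y Y' : ℝ) (k : ℤ)
    (hYY : Y * nm w ≤ Y') :
    ∑ z ∈ (V Y).filter (fun z => ¬ star w ∣ z), (F w * xi (-k) w) * (F z * xi (-k) z) =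
      ∑ z ∈ (V Y').filter (fun z => w ∣ z ∧ (nm z : ℝ) ≤ Y * nm w), F z * xi (-k) z := by
  have hw0 : w ≠ 0 := ne_zero_of_odd hw.odd
  have hnw : (0 : ℝ) < nm w := by exact_mod_cast nm_pos hw0
  refine Finset.sum_bij (fun z _ => w * z) ?_ ?_ ?_ ?_
  · intro z hz
    rw [Finset.mem_filter, mem_V] at hz
    obtain ⟨⟨h1, h2, h3⟩, h4⟩ := hz
    have h5 : (nm (w * z) : ℝ) ≤ Y * nm w := by
      rw [nm_mul]
      push_cast
      nlinarith
    rw [Finset.mem_filter, mem_V]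
    exact ⟨⟨h5.trans hYY, odd_nm_mul.mpr ⟨hw.odd, h2⟩, (prim_mul_iff hw h3).mpr h4⟩,
      dvd_mul_right _ _, h5⟩
  · intro z _ z' _ h
    exact mul_left_cancel₀ hw0 h
  · intro z' hz'
    rw [Finset.mem_filter, mem_V] at hz'
    obtain ⟨⟨h1, h2, h3⟩, ⟨z, rfl⟩, h5⟩ := hz'
    have hz2 : Prim z := (prim_of_mul h3).2
    refine ⟨z, ?_, rfl⟩
    rw [Finset.mem_filter, mem_V]
    refine ⟨⟨?_, (odd_nm_mul.mp h2).2, hz2⟩, (prim_mul_iff hw hz2).mp h3⟩
    rw [nm_mul] at h5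
    push_cast at h5
    have h6 : (nm w : ℝ) * nm z ≤ nm w * Y := by linarith
    exact le_of_mul_le_mul_left h6 hnw
  · intro z hz
    rw [Finset.mem_filter, mem_V] at hz
    rw [hF.mul w z hw.odd hz.1.2.1, xi_mul]
    push_cast
    ring

/-- Every `w ∈ PP P Q` (`P ≥ 1`) lies in exactly one block `v < nv Q ρ`. Expand
`UZC = ∑_v ∑_{w ∈ blk v} ∑_{z ∈ V (X e^(-vρ))} F w F z xi_{-k}(w z)` and split the `z`: `star w ∣ z`
(`A2C`); else `w z` is odd primitive (`prim_mul_iff`) of norm `≤ X e^ρ`: norm `> X` (`A3C`), or `w z ∈ V X`.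
For `w ∈ blk v` the map `z ↦ w z` is a bijection from `{z ∈ V (X e^(-vρ)) : ¬ star w ∣ z, nm (w z) ≤ X}` to
`{z' ∈ V X : w ∣ z'}` because `nm z' ≤ X` and `nm w > e^(vρ)`. -/
theorem stage_id (F : G → ℂ) (hF : CM F) (P Q ρ X : ℝ) (k : ℤ) (hP : 1 ≤ P) (hPQ : P ≤ Q)
    (hρ : 0 < ρ) (hX : 1 ≤ X) :
    UZC F P Q ρ X k = ∑ z ∈ V X, F z * (om P Q z : ℂ) * xi (-k) z + A2C F P Q ρ X k +
      A3C F P Q ρ X k := by
  classical
  -- the double sum without the non primitive terms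
  have h1 : UZC F P Q ρ X k = A2C F P Q ρ X k + ∑ v ∈ Finset.range (nv Q ρ), ∑ w ∈ blk P Q ρ v,
      ∑ z ∈ (V (X * Real.exp ρ)).filter (fun z => w ∣ z ∧
        (nm z : ℝ) ≤ X * Real.exp (-(v * ρ)) * nm w), F z * xi (-k) z := by
    unfold UZC A2C
    rw [← Finset.sum_add_distrib]
    refine Finset.sum_congr rfl fun v _ => ?_
    unfold UC
    rw [Finset.sum_mul, ← Finset.sum_add_distrib]
    refine Finset.sum_congr rfl fun w hw => ?_
    have hs : Spl w := PP_spl (mem_blk.mp hw).1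
    have hYY : X * Real.exp (-(v * ρ)) * nm w ≤ X * Real.exp ρ := by
      have h2 := (mem_blk.mp hw).2.2
      calc X * Real.exp (-(v * ρ)) * nm w ≤ X * Real.exp (-(v * ρ)) * Real.exp ((v + 1) * ρ) := by
            gcongr
        _ = X * Real.exp ρ := by
            rw [mul_assoc, ← Real.exp_add]
            congr 2
            ring
    rw [← sub_sum F hF hs _ _ k hYY, fcC, ← Finset.sum_filter_add_sum_filter_not _
      (fun z => star w ∣ z), mul_add]
    congr 1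
    rw [Finset.mul_sum]
  have h2 : ∑ v ∈ Finset.range (nv Q ρ), ∑ w ∈ blk P Q ρ v,
      ∑ z ∈ (V (X * Real.exp ρ)).filter (fun z => w ∣ z ∧
        (nm z : ℝ) ≤ X * Real.exp (-(v * ρ)) * nm w), F z * xi (-k) z =
      ∑ z ∈ V (X * Real.exp ρ), F z * (mA P Q ρ X z : ℂ) * xi (-k) z := by
    have e1 : ∀ v : ℕ, ∑ w ∈ blk P Q ρ v,
        ∑ z ∈ (V (X * Real.exp ρ)).filter (fun z => w ∣ z ∧
          (nm z : ℝ) ≤ X * Real.exp (-(v * ρ)) * nm w), F z * xi (-k) z =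
        ∑ z ∈ V (X * Real.exp ρ), (((blk P Q ρ v).filter (fun w => w ∣ z ∧
          (nm z : ℝ) ≤ X * Real.exp (-(v * ρ)) * nm w)).card : ℂ) * (F z * xi (-k) z) := by
      intro v
      simp only [Finset.sum_filter]
      rw [Finset.sum_comm]
      refine Finset.sum_congr rfl fun z _ => ?_
      rw [← Finset.sum_filter, Finset.sum_const, nsmul_eq_mul]
    simp only [e1]
    rw [Finset.sum_comm]
    refine Finset.sum_congr rfl fun z _ => ?_
    rw [← Finset.sum_mul, mA]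
    push_cast
    ring
  have hsub : V X ⊆ V (X * Real.exp ρ) := by
    intro z hz
    rw [mem_V] at hz ⊢
    refine ⟨hz.1.trans ?_, hz.2⟩
    have : 1 ≤ Real.exp ρ := Real.one_le_exp hρ.le
    nlinarith
  have h3 : ∑ z ∈ V X, F z * (om P Q z : ℂ) * xi (-k) z =
      ∑ z ∈ V X, F z * (mA P Q ρ X z : ℂ) * xi (-k) z := by
    refine Finset.sum_congr rfl fun z hz => ?_
    have e2 := mA_eq_om P Q ρ X hP hρ (by linarith) z (mem_V.mp hz).1
    rw [← e2]
    push_cast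
    ring
  rw [h1, h2, ← Finset.sum_sdiff hsub, h3, A3C]
  ring

end Pool.Agent.GaussCM
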