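import Pool.Agent.Lib_MP_f1a94e_mu.StageM
import Pool.Agent.Lib_MP_f1a94e_ecc.StageId

/-!
# one stage (port to complex completely multiplicative functions)
-/

set_option autoImplicit false

namespace Pool.Agent.GaussCM

open Pool.Agent.GaussMR

open Classical in
/-- the substitution `z = star w * z'` -/
theorem sm_sub (F : G → ℂ) (hF : CM F) {w : G} (hw : Spl w) (X Y : ℝ) (k : ℤ) (hX : 0 ≤ X)
    (hYX : Y ≤ X) :
    F w * xi (-k) w * ∑ z ∈ (V Y).filter (fun z => star w ∣ z), F z * xi (-k) z =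
      ∑ z ∈ (V (3 * X)).filter (fun z => ¬ w ∣ z ∧ (nm w : ℝ) * nm z ≤ Y),
        (F w * F (star w)) * (F z * xi (-k) z) := by
  have hw' : Spl (star w) := hw.conj
  have hw0 : w ≠ 0 := ne_zero_of_odd hw.odd
  have hw0' : star w ≠ 0 := ne_zero_of_odd hw'.odd
  have hnw1 : (1 : ℝ) ≤ nm w := by exact_mod_cast nm_pos hw0
  rw [Finset.mul_sum]
  symm
  refine Finset.sum_bij (fun z _ => star w * z) ?_ ?_ ?_ ?_
  · intro z hz
    rw [Finset.mem_filter, mem_V] at hz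
    obtain ⟨⟨h1, h2, h3⟩, h4, h5⟩ := hz
    rw [Finset.mem_filter, mem_V]
    refine ⟨⟨?_, odd_nm_mul.mpr ⟨hw'.odd, h2⟩, ?_⟩, dvd_mul_right _ _⟩
    · rw [nm_mul, nm_star]
      push_cast
      exact h5
    · refine (prim_mul_iff hw' h3).mpr ?_
      rwa [star_star]
  · intro z _ z' _ h
    exact mul_left_cancel₀ hw0' h
  · intro z' hz'
    rw [Finset.mem_filter, mem_V] at hz'
    obtain ⟨⟨h1, h2, h3⟩, ⟨z, rfl⟩⟩ := hz'
    have hz2 : Prim z := (prim_of_mul h3).2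
    refine ⟨z, ?_, rfl⟩
    rw [nm_mul, nm_star] at h1
    push_cast at h1
    rw [Finset.mem_filter, mem_V]
    refine ⟨⟨?_, (odd_nm_mul.mp h2).2, hz2⟩, ?_, h1⟩
    · have h5 : (0 : ℝ) ≤ nm z := Nat.cast_nonneg _
      have h6 : (nm z : ℝ) ≤ nm w * nm z := by nlinarith
      linarith
    · have := (prim_mul_iff hw' hz2).mp h3
      rwa [star_star] at this
  · intro z hz
    rw [Finset.mem_filter, mem_V] at hz
    have hz1 := hz.1.2.1
    have e1 : F w * F (star w * z) = (F w * F (star w)) * F z := by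
      rw [hF.mul (star w) z hw'.odd hz1]
      ring
    have e2 : xi (-k) w * xi (-k) (star w * z) = xi (-k) z := by
      rw [← xi_mul, ← mul_assoc, sm_mul_star, xi_natCast_mul _ (nm_pos hw0)]
    calc (F w * F (star w)) * (F z * xi (-k) z) = (F w * F (star w * z)) *
          (xi (-k) w * xi (-k) (star w * z)) := by rw [e1, e2]; ring
      _ = _ := by ring

open Classical in
/-- weighted number of representations -/
noncomputable def smcC (F : G → ℂ) (P Q ρ X : ℝ) (z : G) : ℂ :=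
  ∑ v ∈ Finset.range (nv Q ρ), ∑ w ∈ blk P Q ρ v,
    if ¬ w ∣ z ∧ (nm w : ℝ) * nm z ≤ X * Real.exp (-(v * ρ)) then F w * F (star w) else 0

theorem smcC_norm_le (F : G → ℂ) (hF : CM F) (P Q ρ X : ℝ) (z : G) :
    ‖smcC F P Q ρ X z‖ ≤ smc P Q ρ X z := by
  classical
  unfold smcC smc
  refine (norm_sum_le _ _).trans (Finset.sum_le_sum fun v _ => ?_)
  refine (norm_sum_le _ _).trans (Finset.sum_le_sum fun w hw => ?_)
  split_ifs with h
  · have hsp := PP_spl (mem_blk.mp hw).1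
    rw [norm_mul]
    exact mul_le_one₀ (hF.norm hsp.odd) (norm_nonneg _) (hF.norm hsp.conj.odd)
  · rw [norm_zero]

theorem sm_A2_eq (F : G → ℂ) (hF : CM F) (P Q ρ X : ℝ) (k : ℤ) (hρ : 0 < ρ) (hX : 0 ≤ X) :
    A2C F P Q ρ X k = ∑ z ∈ V (3 * X), (smcC F P Q ρ X z * F z) * xi (-k) z := by
  classical
  unfold A2C
  have h1 : ∀ v ∈ Finset.range (nv Q ρ), ∑ w ∈ blk P Q ρ v, F w * xi (-k) w *
      ∑ z ∈ (V (X * Real.exp (-(v * ρ)))).filter (fun z => star w ∣ z), F z * xi (-k) z =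
      ∑ w ∈ blk P Q ρ v, ∑ z ∈ V (3 * X),
        if ¬ w ∣ z ∧ (nm w : ℝ) * nm z ≤ X * Real.exp (-(v * ρ)) then
          (F w * F (star w)) * (F z * xi (-k) z) else 0 := by
    intro v _
    refine Finset.sum_congr rfl fun w hw => ?_
    have hsp := PP_spl (mem_blk.mp hw).1
    have hexp : Real.exp (-(v * ρ)) ≤ 1 := by
      rw [Real.exp_le_one_iff]
      have : (0 : ℝ) ≤ v * ρ := by positivity
      linarith
    rw [sm_sub F hF hsp X _ k hX (by nlinarith), Finset.sum_filter]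
  rw [Finset.sum_congr rfl h1]
  have h2 : ∀ v ∈ Finset.range (nv Q ρ), (∑ w ∈ blk P Q ρ v, ∑ z ∈ V (3 * X),
        if ¬ w ∣ z ∧ (nm w : ℝ) * nm z ≤ X * Real.exp (-(v * ρ)) then
          (F w * F (star w)) * (F z * xi (-k) z) else 0) = ∑ z ∈ V (3 * X), ∑ w ∈ blk P Q ρ v,
        if ¬ w ∣ z ∧ (nm w : ℝ) * nm z ≤ X * Real.exp (-(v * ρ)) then
          (F w * F (star w)) * (F z * xi (-k) z) else 0 := fun v _ => Finset.sum_comm
  rw [Finset.sum_congr rfl h2, Finset.sum_comm]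
  refine Finset.sum_congr rfl fun z _ => ?_
  unfold smcC
  rw [Finset.sum_mul, Finset.sum_mul]
  refine Finset.sum_congr rfl fun v _ => ?_
  rw [Finset.sum_mul, Finset.sum_mul]
  refine Finset.sum_congr rfl fun w _ => ?_
  split_ifs
  · ring
  · ring

/-- better bound for the non primitive terms: with `z = star w * z'` (`z'` primitive, `¬ w ∣ z'`, cf.
`prim_mul_iff`) one has `F w F z xi_{-k}(w z) = F z' xi_{-k}(z')` (`F w F (star w) = 1`,
`w * star w = nm w` has direction `1`: `xi_natCast_mul`). So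
`A2C = ∑_{z'} c(z') F z' xi_{-k}(z')`, `c(z')` = number of pairs `(v, w)`, `w ∈ blk v`, `¬ w ∣ z'`,
`nm w * nm z' ≤ X e^(-vρ)`; such pairs have `nm w ^ 2 * nm z' ≤ X e^ρ ≤ 3 X`, in particular all `z'` with
`c(z') ≠ 0` lie in `V (3 X)`. `large_sieve` on `V (3 X)`: `≤ C (T + 3 X) ∑ c(z')²`, and
`∑ c(z')² ≤ ∑_{w1, w2} #{z' ≠ 0 : nm z' ≤ 3 X / max(nm w1, nm w2)²} ≤ 2 ∑_{w2} ∑_{nm w1 ≤ nm w2} 27 X / (nm w2)²
≤ 54 X ∑_{w2} 1 / nm w2 = 54 X Ls` (`card_ball_le`; the number of `w1` in `PP` with `nm w1 ≤ nm w2` is at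
most `nm w2` because distinct elements have distinct norms, `PP_inj`). -/
theorem A2_small : ∃ C : ℝ, 0 < C ∧ ∀ (F : G → ℂ), CM F → ∀ (P Q ρ X : ℝ) (T : ℕ),
    2 ≤ P → 0 < ρ → ρ ≤ 1 → 1 ≤ X → (T : ℝ) ≤ X →
    ∑ k ∈ fr T, ‖A2C F P Q ρ X k‖ ^ 2 ≤ C * X ^ 2 * Ls P Q := by
  classical
  obtain ⟨C1, hC1, hls⟩ := large_sieve
  refine ⟨216 * C1, by positivity, ?_⟩
  intro F hF P Q ρ X T hP hρ hρ1 hX hTX
  have hX0 : 0 < X := by linarith
  simp only [sm_A2_eq F hF P Q ρ X _ hρ hX0.le]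
  refine (hls (3 * X) T (fun z => smcC F P Q ρ X z * F z) (by linarith)).trans ?_
  have h1 : ∑ z ∈ V (3 * X), ‖smcC F P Q ρ X z * F z‖ ^ 2 ≤ 54 * X * Ls P Q := by
    refine le_trans (Finset.sum_le_sum fun z hz => ?_) (sm_second P Q X (by linarith) hX0.le)
    have h2 : ‖smcC F P Q ρ X z * F z‖ ≤ smc P Q ρ X z := by
      rw [norm_mul]
      calc ‖smcC F P Q ρ X z‖ * ‖F z‖ ≤ ‖smcC F P Q ρ X z‖ * 1 :=
            mul_le_mul_of_nonneg_left (hF.norm (mem_V.mp hz).2.1) (norm_nonneg _)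
        _ = ‖smcC F P Q ρ X z‖ := mul_one _
        _ ≤ _ := smcC_norm_le F hF P Q ρ X z
    exact pow_le_pow_left₀ (norm_nonneg _) (h2.trans (smc_le P Q ρ X hρ hρ1 hX0.le z)) 2
  have h3 : 0 ≤ Ls P Q := Finset.sum_nonneg fun w _ => by positivity
  calc C1 * (T + 3 * X) * ∑ z ∈ V (3 * X), ‖smcC F P Q ρ X z * F z‖ ^ 2
      ≤ C1 * (X + 3 * X) * (54 * X * Ls P Q) := by
        apply mul_le_mul _ h1 (Finset.sum_nonneg fun _ _ => by positivity) (by positivity)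
        apply mul_le_mul_of_nonneg_left _ hC1.le
        linarith
    _ = 216 * C1 * X ^ 2 * Ls P Q := by ring

/-- as `stage` (Lib_MP_f1a94e_mr/Stage.lean), with `A2_small` in place of `A2_bound` -/
theorem stageM : ∃ C : ℝ, 0 < C ∧ ∀ (F : G → ℂ), CM F → ∀ (P Q ρ X : ℝ) (T : ℕ),
    2 ≤ P → P ≤ Q → Q ^ 20 ≤ X → 0 < ρ → ρ ≤ 1 → X ^ (-(1 / 4 : ℝ)) ≤ ρ → (T : ℝ) ≤ X →
    1 ≤ Ls P Q →
    ∑ k ∈ fr T, ‖(Ls P Q : ℂ) * fcC F X k - UZC F P Q ρ X k‖ ^ 2 ≤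
      C * X ^ 2 * Ls P Q ^ 2 * (1 / Ls P Q + ρ) := by
  classical
  obtain ⟨C1, hC1, hls⟩ := large_sieve
  obtain ⟨C2, hC2, htk⟩ := TK
  obtain ⟨C3, hC3, hann⟩ := annulus
  obtain ⟨C4, hC4, hA2s⟩ := A2_small
  refine ⟨3 * (4 * C1 * C2 + C4 + 16 * C1 * C3), by positivity, ?_⟩
  intro F hF P Q ρ X T hP hPQ hQX hρ hρ1 hXρ hTX hLs
  have hQ2 : 2 ≤ Q := hP.trans hPQ
  have hX1 : 1 ≤ X := (one_le_pow₀ (by linarith : (1 : ℝ) ≤ Q)).trans hQX
  have hX0 : 0 < X := by linarith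
  have hLs0 : 0 < Ls P Q := by linarith
  set L := Ls P Q with hL
  -- the three parts
  have hdec : ∀ k, (L : ℂ) * fcC F X k - UZC F P Q ρ X k =
      ∑ z ∈ V X, (F z * ((L - om P Q z : ℝ) : ℂ)) * xi (-k) z - A2C F P Q ρ X k -
        A3C F P Q ρ X k := by
    intro k
    rw [stage_id F hF P Q ρ X k (by linarith) hPQ hρ hX1]
    have e1 : ∑ z ∈ V X, (F z * ((L - om P Q z : ℝ) : ℂ)) * xi (-k) z =
        (L : ℂ) * fcC F X k - ∑ z ∈ V X, F z * (om P Q z : ℂ) * xi (-k) z := by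
      rw [fcC, Finset.mul_sum, ← Finset.sum_sub_distrib]
      refine Finset.sum_congr rfl fun z _ => ?_
      push_cast
      ring
    rw [e1]
    ring
  have h3 : ∀ a b c : ℂ, ‖a - b - c‖ ^ 2 ≤ 3 * (‖a‖ ^ 2 + ‖b‖ ^ 2 + ‖c‖ ^ 2) := by
    intro a b c
    have e1 : ‖a - b - c‖ ≤ ‖a‖ + ‖b‖ + ‖c‖ :=
      (norm_sub_le _ _).trans (add_le_add_left (norm_sub_le _ _) _)
    have e2 := pow_le_pow_left₀ (norm_nonneg _) e1 2
    nlinarith [sq_nonneg (‖a‖ - ‖b‖), sq_nonneg (‖b‖ - ‖c‖), sq_nonneg (‖a‖ - ‖c‖)]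
  -- first part
  have hA1 : ∑ k ∈ fr T, ‖∑ z ∈ V X, (F z * ((L - om P Q z : ℝ) : ℂ)) * xi (-k) z‖ ^ 2 ≤
      4 * C1 * C2 * X ^ 2 * L := by
    refine (hls X T (fun z => F z * ((L - om P Q z : ℝ) : ℂ)) hX1).trans ?_
    have e1 : ∑ z ∈ V X, ‖F z * ((L - om P Q z : ℝ) : ℂ)‖ ^ 2 ≤
        ∑ z ∈ V X, (om P Q z - L) ^ 2 := by
      refine Finset.sum_le_sum fun z hz => ?_
      rw [norm_mul, Complex.norm_real, Real.norm_eq_abs, mul_pow, sq_abs]
      have g1 : ‖F z‖ ^ 2 ≤ 1 := pow_le_one₀ (norm_nonneg _) (hF.norm (mem_V.mp hz).2.1)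
      calc ‖F z‖ ^ 2 * (L - om P Q z) ^ 2 ≤ 1 * (L - om P Q z) ^ 2 :=
            mul_le_mul_of_nonneg_right g1 (sq_nonneg _)
        _ = (om P Q z - L) ^ 2 := by ring
    have e0 : C1 * (T + X) * ∑ z ∈ V X, ‖F z * ((L - om P Q z : ℝ) : ℂ)‖ ^ 2 ≤
        C1 * (T + X) * ∑ z ∈ V X, (om P Q z - L) ^ 2 :=
      mul_le_mul_of_nonneg_left e1 (by positivity)
    refine e0.trans ?_
    have e2 := htk P Q X hP hPQ hQX
    have e3 : C2 * X * (L + 1) ≤ C2 * X * (2 * L) := by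
      gcongr
      linarith
    calc C1 * (T + X) * ∑ z ∈ V X, (om P Q z - L) ^ 2 ≤ C1 * (X + X) * (C2 * X * (2 * L)) := by
          have e4 : 0 ≤ ∑ z ∈ V X, (om P Q z - L) ^ 2 := Finset.sum_nonneg fun _ _ => sq_nonneg _
          gcongr
          exact e2.trans e3
      _ = 4 * C1 * C2 * X ^ 2 * L := by ring
  -- third part
  have hA3 : ∑ k ∈ fr T, ‖A3C F P Q ρ X k‖ ^ 2 ≤ 16 * C1 * C3 * X ^ 2 * L ^ 2 * ρ := by
    have hexp : Real.exp ρ ≤ 3 := by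
      have := Real.exp_one_lt_d9
      exact (Real.exp_le_exp.mpr hρ1).trans (by linarith)
    have hexp1 : 1 ≤ Real.exp ρ := Real.one_le_exp hρ.le
    have hXe : 1 ≤ X * Real.exp ρ := by nlinarith
    set a : G → ℂ := fun z => if z ∈ V X then 0 else F z * (mA P Q ρ X z : ℂ) with ha
    have hsub : V X ⊆ V (X * Real.exp ρ) := by
      intro z hz
      rw [mem_V] at hz ⊢
      exact ⟨hz.1.trans (by nlinarith), hz.2⟩
    have e1 : ∀ k, A3C F P Q ρ X k = ∑ z ∈ V (X * Real.exp ρ), a z * xi (-k) z := by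
      intro k
      rw [← Finset.sum_sdiff hsub, A3C]
      have e2 : ∑ z ∈ V X, a z * xi (-k) z = 0 := by
        refine Finset.sum_eq_zero fun z hz => ?_
        rw [ha]
        simp [hz]
      rw [e2, add_zero]
      refine Finset.sum_congr rfl fun z hz => ?_
      have e3 : z ∉ V X := (Finset.mem_sdiff.mp hz).2
      rw [ha]
      simp [e3]
    have e2 : ∑ z ∈ V (X * Real.exp ρ), ‖a z‖ ^ 2 ≤ C3 * ρ * X * (2 * L) ^ 2 := by
      rw [← Finset.sum_sdiff hsub]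
      have e3 : ∑ z ∈ V X, ‖a z‖ ^ 2 = 0 := by
        refine Finset.sum_eq_zero fun z hz => ?_
        rw [ha]
        simp [hz]
      rw [e3, add_zero]
      calc ∑ z ∈ V (X * Real.exp ρ) \ V X, ‖a z‖ ^ 2
          ≤ ∑ z ∈ V (X * Real.exp ρ) \ V X, (om P Q z) ^ 2 := by
            refine Finset.sum_le_sum fun z hz => ?_
            have e4 : z ∉ V X := (Finset.mem_sdiff.mp hz).2
            have e5 := (Finset.mem_sdiff.mp hz).1
            have e6 : ‖a z‖ ≤ mA P Q ρ X z := by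
              rw [ha]
              simp only [e4, if_false]
              rw [norm_mul, Complex.norm_natCast]
              exact mul_le_of_le_one_left (Nat.cast_nonneg _) (hF.norm (mem_V.mp e5).2.1)
            exact pow_le_pow_left₀ (norm_nonneg _)
              (e6.trans (mA_le P Q ρ X hρ z (V_ne_zero e5))) 2
        _ ≤ C3 * ρ * X * (L + 1) ^ 2 := hann P Q X ρ hP hPQ hQX hρ hρ1 hXρ
        _ ≤ C3 * ρ * X * (2 * L) ^ 2 := by
            gcongr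
            linarith
    simp only [e1]
    refine (hls (X * Real.exp ρ) T a hXe).trans ?_
    calc C1 * (T + X * Real.exp ρ) * ∑ z ∈ V (X * Real.exp ρ), ‖a z‖ ^ 2
        ≤ C1 * (X + X * 3) * (C3 * ρ * X * (2 * L) ^ 2) := by
          have e4 : 0 ≤ ∑ z ∈ V (X * Real.exp ρ), ‖a z‖ ^ 2 :=
            Finset.sum_nonneg fun _ _ => sq_nonneg _
          gcongr
      _ = 16 * C1 * C3 * X ^ 2 * L ^ 2 * ρ := by ring
  -- second part
  have hA2 : ∑ k ∈ fr T, ‖A2C F P Q ρ X k‖ ^ 2 ≤ C4 * X ^ 2 * L :=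
    hA2s F hF P Q ρ X T hP hρ hρ1 hX1 hTX
  calc ∑ k ∈ fr T, ‖(L : ℂ) * fcC F X k - UZC F P Q ρ X k‖ ^ 2
      ≤ ∑ k ∈ fr T, 3 * (‖∑ z ∈ V X, (F z * ((L - om P Q z : ℝ) : ℂ)) * xi (-k) z‖ ^ 2 +
          ‖A2C F P Q ρ X k‖ ^ 2 + ‖A3C F P Q ρ X k‖ ^ 2) := by
        refine Finset.sum_le_sum fun k _ => ?_
        rw [hdec]
        exact h3 _ _ _
    _ = 3 * (∑ k ∈ fr T, ‖∑ z ∈ V X, (F z * ((L - om P Q z : ℝ) : ℂ)) * xi (-k) z‖ ^ 2 +
          ∑ k ∈ fr T, ‖A2C F P Q ρ X k‖ ^ 2 + ∑ k ∈ fr T, ‖A3C F P Q ρ X k‖ ^ 2) := by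
        rw [← Finset.mul_sum, Finset.sum_add_distrib, Finset.sum_add_distrib]
    _ ≤ 3 * (4 * C1 * C2 * X ^ 2 * L + C4 * X ^ 2 * L +
          16 * C1 * C3 * X ^ 2 * L ^ 2 * ρ) := by gcongr
    _ ≤ 3 * (4 * C1 * C2 + C4 + 16 * C1 * C3) * X ^ 2 * L ^ 2 * (1 / L + ρ) := by
        have e1 : X ^ 2 * L ^ 2 * (1 / L) = X ^ 2 * L := by field_simp
        have e4 : 3 * (4 * C1 * C2 + C4 + 16 * C1 * C3) * X ^ 2 * L ^ 2 *
            (1 / L + ρ) = 3 * (4 * C1 * C2 + C4 + 16 * C1 * C3) *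
              (X ^ 2 * L + X ^ 2 * L ^ 2 * ρ) := by
          rw [← e1]
          ring
        rw [e4]
        have p2 : 0 ≤ C1 * C2 * (X ^ 2 * L ^ 2 * ρ) := by positivity
        have p4 : 0 ≤ C4 * (X ^ 2 * L ^ 2 * ρ) := by positivity
        have p6 : 0 ≤ C1 * C3 * (X ^ 2 * L) := by positivity
        nlinarith

end Pool.Agent.GaussCM
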