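import Pool.Agent.Lib_MP_f1a94e_mu.Params
import Pool.Agent.Lib_MP_f1a94e_ecc.Chain
import Pool.Agent.Lib_MP_f1a94e_ecc.Few

/-!
# The chain theorem for completely multiplicative complex functions
-/

set_option autoImplicit false

namespace Pool.Agent.GaussCM

open Pool.Agent.GaussMR

/-- chain + params + few: outside a set of at most `X ^ δ` frequencies the Fourier coefficients have small mass -/
theorem chainC (ε δ : ℝ) (hε : 0 < ε) (hδ : 0 < δ) : ∃ Q0 X0 : ℝ, 1 ≤ Q0 ∧ ∀ X : ℝ, X0 ≤ X →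
    ∀ F : G → ℂ, CM F → ∀ T : ℕ, (T : ℝ) ≤ X / Q0 →
    ∃ S : Finset ℤ, S ⊆ fr T ∧ (S.card : ℝ) ≤ X ^ δ ∧
      ∑ k ∈ fr T \ S, ‖fcC F X k‖ ^ 2 ≤ ε * X ^ 2 := by
  classical
  obtain ⟨CS, hCS, hchain⟩ := chain
  set δ' : ℝ := min δ 1 with hδ'def
  have hδ' : 0 < δ' := lt_min hδ one_pos
  have hδ'1 : δ' ≤ 1 := min_le_right _ _
  have hδ'K : δ' ≤ δ := min_le_left _ _
  set α : ℝ := δ' / 8 with hαdef
  set C2 : ℝ := 32 / δ' with hC2def
  have hα : 0 < α := by positivity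
  have hαq : α ≤ 1 / 4 := by rw [hαdef]; linarith
  have hα1 : α ≤ 1 := by linarith
  have hC2 : 32 ≤ C2 := by
    rw [hC2def, le_div_iff₀ hδ']
    linarith
  have hC2δ : 1 / C2 = δ' / 32 := by
    rw [hC2def]
    field_simp
  obtain ⟨M, ρ, Q0, hM1, hρ, hρ1, hQ0, XP, hparams⟩ :=
    params CS α C2 (ε / CS) hCS hα hα1 (by linarith) (by positivity)
  obtain ⟨XF, hfew⟩ := few α C2 M ρ (δ' / 4) hα hαq (by linarith) hM1 hρ hρ1 (by positivity)
  refine ⟨Q0, max 3 (max XP XF), hQ0, fun X hX F hF T hT => ?_⟩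
  simp only [max_le_iff] at hX
  obtain ⟨hX3, hXP, hXF⟩ := hX
  have hXpos : 0 < X := by linarith
  have hX1 : 1 ≤ X := by linarith
  have hTX : (T : ℝ) ≤ X := hT.trans (div_le_self hXpos.le hQ0)
  obtain ⟨J, P, Q, r, a, l, hadm, hQ0', hPJ, hQJ, hrJ, haJ, herr⟩ := hparams X hXP
  have hch := hchain F hF X T J P Q r a l hadm (by rw [hQ0']; exact hT)
  have hb : ∑ k ∈ smallSetC F T (P J) (Q J) (r J) (a J), ‖fcC F X k‖ ^ 2 ≤ ε * X ^ 2 := by
    refine hch.trans ?_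
    calc CS * X ^ 2 * Err CS J P Q r a l ≤ CS * X ^ 2 * (ε / CS) :=
          mul_le_mul_of_nonneg_left herr (by positivity)
      _ = ε * X ^ 2 := by field_simp
  rw [hPJ, hQJ, hrJ, haJ] at hb
  set S : Finset ℤ := (fr T).filter (fun k => ¬∀ v : ℕ,
    ‖UC F (Real.log X ^ C2) (Real.log X ^ (C2 * M)) ρ v k‖ ≤ Real.exp ((1 - α) * (v * ρ))) with hSdef
  have hSsub : S ⊆ fr T := Finset.filter_subset _ _
  refine ⟨S, hSsub, ?_, ?_⟩
  · have h1 := hfew X hXF F hF T hTX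
    have hfinS : {k : ℤ | k ∈ fr T ∧ ∃ v : ℕ, Real.exp ((1 - α) * (v * ρ)) <
        ‖UC F (Real.log X ^ C2) (Real.log X ^ (C2 * M)) ρ v k‖}.Finite :=
      (fr T).finite_toSet.subset fun k hk => hk.1
    have h2' : S.card ≤ Set.ncard {k : ℤ | k ∈ fr T ∧ ∃ v : ℕ,
        Real.exp ((1 - α) * (v * ρ)) <
        ‖UC F (Real.log X ^ C2) (Real.log X ^ (C2 * M)) ρ v k‖} := by
      rw [← Set.ncard_coe_finset S]
      refine Set.ncard_le_ncard (fun k hk => ?_) hfinS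
      have hk' : k ∈ S := hk
      have h3 := (Finset.mem_filter.1 hk').2
      push Not at h3
      exact ⟨hSsub hk', h3⟩
    have h2 : (S.card : ℝ) ≤ (Set.ncard {k : ℤ | k ∈ fr T ∧ ∃ v : ℕ,
        Real.exp ((1 - α) * (v * ρ)) <
        ‖UC F (Real.log X ^ C2) (Real.log X ^ (C2 * M)) ρ v k‖} : ℝ) := by
      exact_mod_cast h2'
    refine (h2.trans h1).trans ?_
    apply Real.rpow_le_rpow_of_exponent_le hX1
    rw [hC2δ, hαdef]
    linarith
  · refine le_trans (le_of_eq ?_) hb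
    apply Finset.sum_congr _ (fun _ _ => rfl)
    unfold smallSetC
    ext k
    simp only [hSdef, Finset.mem_sdiff, Finset.mem_filter]
    tauto

end Pool.Agent.GaussCM
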